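import Pool.Agent.Q18.EQ.Mn

/-!
# Navarro's equality for `p`-group extensions and equivariant bijections
-/

open scoped Classical

noncomputable section

namespace Pool.Agent.Results.MP_0c8ca5_al.EquivariantBijections

open Pool.Agent.Y63.NV
open Pool.Agent.Q18.EQ (IsWeight mv lab)

/-- There is a `Γ`-equivariant bijection between the `G`-classes of `p`-weights of `G` and the
irreducible Brauer characters of `G` which preserves the blocks (`G` normal in `Γ`). It is written
as a map `Φ` from the weights onto the set of irreducible characters over `F`, whose fibres are the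
`G`-classes, which commutes with the conjugations by the elements of `Γ`, and such that every
element `f` of the centre of `F[G]` acts on `Φ w` as the scalar given by the central character of
the block which the block of `w` induces. -/
def EquivariantBijection (p : ℕ) {F : Type} [Field F] (red : integralClosure ℤ ℂ →+* F)
    {Γ : Type} [Group Γ] (G : Subgroup Γ) [G.Normal] : Prop :=
  ∃ Φ : {w : Subgroup G × (G → ℂ) // IsWeight p w} → {φ : G → F // IsIrrTrace φ},
    Function.Surjective Φ ∧
    (∀ w w', Φ w = Φ w' ↔ ∃ g : G, w'.1 = mv (MulAut.conj g) w.1) ∧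
    (∀ (γ : Γ) (w w' : {w : Subgroup G × (G → ℂ) // IsWeight p w}),
      w'.1 = mv (MulAut.conjNormal γ) w.1 →
      ∀ x : G, (Φ w').1 (MulAut.conjNormal γ x) = (Φ w).1 x) ∧
    ∀ w (f : G → F), IsClassFun f → ∀ x : G,
      ∑ᶠ g : G, f g * (Φ w).1 (g * x) = lab red w.1 f * (Φ w).1 x

/-- 1. Let `Γ/G` be a `p`-group. Navarro's equality holds for all pairs `G ≤ L`, `L ≤ Γ`, and all
`L`-invariant blocks of `G`, if and only if there is a `Γ`-equivariant bijection preserving the
blocks between the classes of weights and the irreducible Brauer characters of `G`.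

2. Hence Navarro's conjecture at `p` is equivalent to the existence of such bijections for all
finite groups `Γ` and normal subgroups `G` with `Γ/G` a `p`-group.

3. Let `X` be a class of groups closed under isomorphisms, subgroups and quotients by normal
`p`-subgroups. The blockwise Alperin weight conjecture holds for the finite groups in `X` which have
no normal subgroup of index `p` and no non-trivial normal `p`-subgroup if and only if there are
`Γ`-equivariant bijections preserving the blocks for all normal subgroups `G` of finite groups `Γ`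
such that `G` contains a normal subgroup `N` of `Γ` in `X` for which `Γ/N` is a `p`-group. -/
theorem result (p : ℕ) [Fact p.Prime] (F : Type) [Field F] [IsAlgClosed F] [CharP F p]
    (red : integralClosure ℤ ℂ →+* F) :
    (∀ (Γ : Type) [Group Γ] [Finite Γ] (G : Subgroup Γ) [G.Normal], IsPGroup p (Γ ⧸ G) →
      ((∀ L : Subgroup Γ, G ≤ L → NavarroTheta p red (G.subgroupOf L)) ↔
        EquivariantBijection p red G)) ∧
    ((∀ (Γ : Type) [Group Γ] [Finite Γ] (G : Subgroup Γ) [G.Normal], IsPGroup p (Γ ⧸ G) →
        NavarroTheta p red G) ↔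
      ∀ (Γ : Type) [Group Γ] [Finite Γ] (G : Subgroup Γ) [G.Normal], IsPGroup p (Γ ⧸ G) →
        EquivariantBijection p red G) ∧
    ∀ X : ∀ (H : Type) [Group H], Prop, Closed p X →
      ((∀ (H : Type) [Group H] [Finite H], X H → Reduced p H →
        NavarroTheta p red (⊤ : Subgroup H)) ↔
      ∀ (Γ : Type) [Group Γ] [Finite Γ] (N G : Subgroup Γ) [N.Normal] [G.Normal], N ≤ G → X N →
        IsPGroup p (Γ ⧸ N) → EquivariantBijection p red G) := by
  have h1 : ∀ (Γ : Type) [Group Γ] [Finite Γ] (G : Subgroup Γ) [G.Normal], IsPGroup p (Γ ⧸ G) →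
      ((∀ L : Subgroup Γ, G ≤ L → NavarroTheta p red (G.subgroupOf L)) ↔
        EquivariantBijection p red G) := by
    intro Γ _ _ G _ hp
    refine Iff.trans ?_ (Pool.Agent.Q18.EQ.eqB_iff (p := p) red G)
    constructor
    · intro h
      exact Pool.Agent.Q18.EQ.main1 red G hp fun L hL => (theta_iff p F red L _).1 (h L hL)
    · intro h L hL
      exact (theta_iff p F red L _).2 (Pool.Agent.Q18.EQ.main2 red G hp h L hL)
  refine ⟨h1, ⟨fun h Γ _ _ G _ hp => (h1 Γ G hp).1 fun L _ =>
    h L (G.subgroupOf L) (Pool.Agent.Q18.EQ.pgroup_sub hp), fun h Γ _ _ G _ hp => ?_⟩,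
    fun X hX => ?_⟩
  · have h2 := (Pool.Agent.Q18.EQ.eqB_iff (p := p) red G).2 (h Γ G hp)
    exact (theta_iff p F red Γ _).2 (Pool.Agent.Q18.EQ.main3 red G hp h2)
  have hpq : ∀ (Γ : Type) [Group Γ] [Finite Γ] (N G : Subgroup Γ) [N.Normal] [G.Normal],
      N ≤ G → IsPGroup p (Γ ⧸ N) → IsPGroup p (Γ ⧸ G) := by
    intro Γ _ _ N G _ _ hNG hp y
    obtain ⟨y, rfl⟩ := QuotientGroup.mk_surjective y
    obtain ⟨k, hk⟩ := hp (y : Γ ⧸ N)
    refine ⟨k, ?_⟩
    rw [← QuotientGroup.mk_pow, QuotientGroup.eq_one_iff] at hk ⊢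
    exact hNG hk
  constructor
  · intro h Γ _ _ N G _ _ hNG hXN hp
    rw [← h1 Γ G (hpq Γ N G hNG hp)]
    intro L hL
    have hNL : N ≤ L := hNG.trans hL
    refine (block_strong red X hX).1 h L (N.subgroupOf L) (G.subgroupOf L) ?_ ?_ ?_
    · intro x hx
      exact hNG hx
    · exact hX.iso N _ hXN ⟨(Subgroup.subgroupOfEquivOfLe hNL).symm⟩
    · exact Pool.Agent.Q18.EQ.pgroup_sub hp
  · intro h
    refine (block_strong red X hX).2 fun Γ _ _ N G _ _ hNG hXN hp => ?_
    have h2 := (Pool.Agent.Q18.EQ.eqB_iff (p := p) red G).2 (h Γ N G hNG hXN hp)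
    exact (theta_iff p F red Γ _).2 (Pool.Agent.Q18.EQ.main3 red G (hpq Γ N G hNG hp) h2)

end Pool.Agent.Results.MP_0c8ca5_al.EquivariantBijections
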