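import Pool.Agent.Q17.RR.All2

/-!
# Navarro's blockwise conjecture and congruences for Galois-stable blocks

`F` is an algebraically closed field of characteristic `p` and `red` the reduction of the algebraic
integers to `F`. Blocks, induced blocks and Navarro's equality (`NavarroTheta`) are those of the
starting library `Pool.Agent.Y63.NV`: a block of `G` is an `F`-algebra homomorphism `B` from the
class functions (the centre of `F[G]`) to `F`, and a character `θ` of a subgroup `H` lies in a block
which induces `B` if `centralValue red θ` of the restriction of `f` to `H` is `B f` for all class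
functions `f` of `G`.
-/

set_option autoImplicit false

open scoped Classical

noncomputable section

namespace Pool.Agent.Results.MP_0c8ca5_al.GaloisStableBlocks

open Pool.Agent.Y63.NV
open Pool.Agent.Y63.AWC (IsIrreducibleCharacter)
open Pool.Agent.Y63.KR (alternatingSum)

/-- the wreath product of `G` with the group `A` in its regular action -/
abbrev WreathRegular (G : Type) [Group G] (A : Type) [Group A] : Type :=
  (A → G) ⋊[mulAutArrow (G := A) (A := A) (M := G)] A

/-- The class `X` is closed under isomorphisms, subgroups, quotients by normal `p`-subgroups, and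
contains with the finite group `G` the groups `G ≀ C`, `C` cyclic of prime order. -/
structure IsClosed (p : ℕ) (X : ∀ (G : Type) [Group G], Prop) : Prop where
  closed : Closed p X
  wreath : ∀ (G : Type) [Group G] [Finite G] (q : ℕ) [Fact q.Prime], X G →
    X (WreathRegular G (Multiplicative (ZMod q)))

/-- `O_p(G) = 1`: the group `G` has no nontrivial normal `p`-subgroup. -/
def TrivialCore (p : ℕ) (G : Type) [Group G] : Prop :=
  ∀ M : Subgroup G, M.Normal → IsPGroup p M → M = ⊥

/-- The values of `χ` lie in a cyclotomic field `ℚ(ζ_k)` with `k` prime to `p` if `p` is odd (`χ` is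
`p`-rational), and in `ℚ(ζ_{4k})` with `k` odd if `p = 2`. -/
def IsRat (p : ℕ) {H : Type} (χ : H → ℂ) : Prop :=
  ∃ k : ℕ, ¬ p ∣ k ∧ ∀ x, χ x ∈ IntermediateField.adjoin ℚ
    {Complex.exp (2 * Real.pi * Complex.I / (k * (if p = 2 then 4 else 1) : ℕ))}

/-- The number of the irreducible characters `χ` of the subgroup `H` of `G` in blocks which induce
the block `B` of `G` and which satisfy `IsRat`. -/
def numRat (p : ℕ) {F : Type} [Field F] (red : integralClosure ℤ ℂ →+* F) {G : Type} [Group G]
    (B : (G → F) → F) (H : Subgroup G) : ℕ :=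
  Nat.card {χ : H → ℂ // IsIrreducibleCharacter χ ∧ IsRat p χ ∧
    ∀ f : G → F, IsClassFun f → centralValue red χ (fun x => f x) = B f}

/-- The block `B` is stable under all automorphisms `s` of `ℂ`: if `χ` is an irreducible character in
`B` then so is `s ∘ χ`. -/
def IsGaloisStable {F : Type} [Field F] (red : integralClosure ℤ ℂ →+* F) {G : Type} [Group G]
    (B : (G → F) → F) : Prop :=
  ∀ (s : ℂ ≃+* ℂ) (χ : G → ℂ), IsIrreducibleCharacter χ →
    (∀ f : G → F, IsClassFun f → centralValue red χ f = B f) →
    ∀ f : G → F, IsClassFun f → centralValue red (fun g => s (χ g)) f = B f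

/-- **Theorem.** Let `p` be a prime, `m` a natural number which is not a power of `p` (`m = 0` is
allowed) and `X` a class of groups which is closed as in `IsClosed` (for instance all groups, or the
groups with nonabelian composition factors in a given set). The following are equivalent:
1. Navarro's equality holds for all finite groups `Γ` with normal subgroups `N ≤ G`, `N` in `X` and
  `Γ/N` a `p`-group, and all `Γ`-invariant blocks of `G`;
2. for all finite groups `H` in `X` with `O_p(H) = 1` and all Galois-stable blocks `B` of `H` without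
  characters of defect zero, `m` divides `∑_σ (-1)^|σ| k(B_σ)`, where `k(B_σ)` is the number of the
  irreducible characters of the stabiliser of `σ` in blocks inducing `B`, and `σ` runs over
  representatives of the classes of chains of nontrivial `p`-subgroups of `H`, the empty chain
  included;
3. the same for the numbers of those characters which are `p`-rational (`p` odd) or have values in
  `ℚ(ζ_{4k})`, `k` odd (`p = 2`). -/
theorem result (p : ℕ) [Fact p.Prime] (F : Type) [Field F] [IsAlgClosed F] [CharP F p]
    (red : integralClosure ℤ ℂ →+* F) (X : ∀ (H : Type) [Group H], Prop) (hX : IsClosed p X)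
    (m : ℕ) (hm : ∀ k, m ≠ p ^ k) :
    List.TFAE [
      ∀ (Γ : Type) [Group Γ] [Finite Γ] (N G : Subgroup Γ) [N.Normal] [G.Normal], N ≤ G → X N →
        IsPGroup p (Γ ⧸ N) → NavarroTheta p red G,
      ∀ (H : Type) [Group H] [Finite H], X H → TrivialCore p H → ∀ B : (H → F) → F,
        IsBlock B → IsGaloisStable red B → numDzBlock p red B = 0 →
        (m : ℤ) ∣ alternatingSum p H (fun K => (numIrrInd red K B : ℤ)),
      ∀ (H : Type) [Group H] [Finite H], X H → TrivialCore p H → ∀ B : (H → F) → F,
        IsBlock B → IsGaloisStable red B → numDzBlock p red B = 0 →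
        (m : ℤ) ∣ alternatingSum p H (fun K => (numRat p red B K : ℤ))] := by
  have hp : p.Prime := Fact.out
  obtain ⟨b, hpb, hb⟩ : ∃ b : ℕ, (p ≠ 2 ∨ 2 ≤ b) ∧ (if p = 2 then 4 else 1) = p ^ b := by
    by_cases h : p = 2
    · exact ⟨2, Or.inr le_rfl, by rw [if_pos h, h]; norm_num⟩
    · exact ⟨0, Or.inl h, by rw [if_neg h, pow_zero]⟩
  have hbot : ∀ (G : Type) [Group G], Monoid.exponent (⊥ : Subgroup G) ∣ p ^ b := by
    intro G _
    have h2 : Monoid.exponent (⊥ : Subgroup G) ∣ 1 :=
      Monoid.exponent_dvd_of_forall_pow_eq_one fun x => Subsingleton.elim _ _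
    exact h2.trans (one_dvd _)
  have key : ∀ (G : Type) [Group G] [Finite G] (B : (G → F) → F), IsBlock B →
      alternatingSum p G (fun K => (numIrrInd red K B : ℤ)) =
        alternatingSum p G (fun K => (numRat p red B K : ℤ)) := by
    intro G _ _ B hB
    have h1 : ∀ H : Subgroup G, numRat p red B H = Pool.Agent.Q18.K.numQ red B
        (fun S => ∃ k : ℕ, ¬ p ∣ k ∧
          ∀ a ∈ S, a ∈ IntermediateField.adjoin ℚ {Pool.Agent.Q18.K.zt (k * p ^ b)}) H := by
      intro H
      unfold numRat Pool.Agent.Q18.K.numQ
      refine Nat.card_congr (Equiv.subtypeEquivRight fun χ => and_congr_right fun _ =>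
        and_congr_left fun _ => ?_)
      simp only [Set.forall_mem_range]
      unfold IsRat
      rw [hb]
      rfl
    have h2 : alternatingSum p G (fun K => (numIrrInd red K B : ℤ)) =
        Pool.Agent.Q18.K.altQ p (⊥ : Subgroup G) red B (fun _ => True) := by
      rw [← Pool.Agent.Q18.K.alt_bot]
      simp only [Pool.Agent.Q18.K.numQ_true]
    simp only [h1]
    rw [h2, Pool.Agent.Q18.K.alt_bot, Pool.Agent.Q18.K.rat_sum' hpb red IsPGroup.of_bot
      inferInstance (hbot G) hB]
  tfae_have 1 → 2 := by
    intro h H _ _ hH _ B hB _ hz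
    have h1 : ∀ (H : Type) [Group H] [Finite H], X H → BAWC p red H := fun H _ _ hH =>
      (bawc_iff p red).2 ((theta_iff p F red H ⊤).1 (h H ⊤ ⊤ le_rfl
        (hX.closed.iso _ _ hH ⟨Subgroup.topEquiv.symm⟩) (pgroup_top p H)))
    have h2 := Pool.Agent.Q18.K.krb_all red X hX.closed h1 H hH B hB
    rw [hz] at h2
    rw [h2]
    exact dvd_zero _
  tfae_have 2 → 1 := by
    intro h
    refine (block_strong red X hX.closed).1 fun H _ _ hH hR => ?_
    have h1 := Pool.Agent.Q18.K.bawc_all red X hX.closed
      (fun H _ _ hH hR => Pool.Agent.Q17.RR.krb_A Pool.Agent.Q17.RR.r_wpk Pool.Agent.Q17.RR.r_stf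
        Pool.Agent.Q17.RR.r_gck Pool.Agent.Q17.RR.r_bro Pool.Agent.Q17.RR.r_brc
        Pool.Agent.Q17.RR.r_brs Pool.Agent.Q17.RR.r_dzk (m := m) hm red (X := X)
        (fun G _ _ q _ hG => hX.wreath G q hG)
        (fun G _ _ hG hG1 β hβ hst hz => h G hG hG1 β hβ hst hz) hH hR.radical) H ⊤
      (hX.closed.iso _ _ hH ⟨Subgroup.topEquiv.symm⟩) (pgroup_top p H)
    exact (theta_iff p F red H ⊤).2 ((bawc_iff p red).1 h1.1)
  tfae_have 2 ↔ 3 := by
    constructor
    · intro h H _ _ hH hR B hB hst hz
      rw [← key H B hB]
      exact h H hH hR B hB hst hz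
    · intro h H _ _ hH hR B hB hst hz
      rw [key H B hB]
      exact h H hH hR B hB hst hz
  tfae_finish

end Pool.Agent.Results.MP_0c8ca5_al.GaloisStableBlocks
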