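import Pool.Agent.Q18.LF.Fin

/-!
# A `p`-local formula for the number of `Γ`-invariant irreducible Brauer characters of a block
-/

open scoped Classical

noncomputable section

namespace Pool.Agent.Results.MP_0c8ca5_al.LocalFormula

open Pool.Agent.Y63.NV
open Pool.Agent.Y63.KR (alternatingSum)
open Pool.Agent.Y63.AWC (IsIrreducibleCharacter pSubgroupSetoid)

section defs

variable {Γ F : Type} [Group Γ] [Field F]

/-- the group `N_Γ(Q)/Q` -/
abbrev Loc (Q : Subgroup Γ) : Type :=
  Subgroup.normalizer (Q : Set Γ) ⧸ Q.subgroupOf (Subgroup.normalizer (Q : Set Γ))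

/-- The image in the group algebra of `N_Γ(Q)/Q` of the restriction of `z` to `N_Γ(Q)`: the sums of
`z` over the cosets of `Q`. -/
def img (Q : Subgroup Γ) (z : Γ → F) : Loc Q → F :=
  fun y => ∑ᶠ x : Subgroup.normalizer (Q : Set Γ),
    if QuotientGroup.mk' (Q.subgroupOf (Subgroup.normalizer (Q : Set Γ))) x = y then z x else 0

/-- `k(H | B)` for a subgroup `H` of `N_Γ(Q)/Q`: the number of irreducible characters `χ` of `H`
such that the (reduced) central character of `χ` takes at the image of `z` the value `B(z)`, for all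
`z` in the centre of `F[Γ]` supported on `G`; in other words the block of `Γ` induced by the block
of the inflation of `χ` covers `B`. -/
def numIrr (red : integralClosure ℤ ℂ →+* F) (G Q : Subgroup Γ) (B : (G → F) → F)
    (H : Subgroup (Loc Q)) : ℕ :=
  Nat.card {χ : H → ℂ // IsIrreducibleCharacter χ ∧
    ∀ z : Γ → F, InZ G z → centralValue red χ (fun x => img Q z x) = B (fun x : G => z x)}

/-- `|dz(N_Γ(Q)/Q | B)|`: the same for the characters of `N_Γ(Q)/Q` of `p`-defect zero. -/
def numDz0 (p : ℕ) (red : integralClosure ℤ ℂ →+* F) (G Q : Subgroup Γ) (B : (G → F) → F) : ℕ :=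
  Nat.card {χ : Loc Q → ℂ // IsWt p (⊥ : Subgroup (Loc Q)) χ ∧
    ∀ z : Γ → F, InZ G z → centralValue red χ (img Q z) = B (fun x : G => z x)}

/-- The alternating sum of Knörr and Robinson for the group `N_Γ(Q)/Q` and the block `B` of `G`:
`∑_σ (-1)^|σ| k((N_Γ(Q)/Q)_σ | B)`, over the classes of chains `σ` of nontrivial `p`-subgroups of
`N_Γ(Q)/Q`. -/
def locSum (p : ℕ) (red : integralClosure ℤ ℂ →+* F) (G Q : Subgroup Γ) (B : (G → F) → F) : ℤ :=
  alternatingSum p (Loc Q) (fun H => (numIrr red G Q B H : ℤ))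

/-- `H` contains a Sylow `p`-subgroup of `Γ` and the normalisers of the `p`-subgroups `Q` of `H` with
`G Q = Γ` -/
structure Controls (p : ℕ) (G H : Subgroup Γ) : Prop where
  syl : ∃ P : Sylow p Γ, (P : Subgroup Γ) ≤ H
  nrm : ∀ Q : Subgroup Γ, IsPGroup p Q → Q ≤ H → G ⊔ Q = ⊤ →
    Subgroup.normalizer (Q : Set Γ) ≤ H

end defs

/-- Let `G` be a proper normal subgroup of the finite group `Γ` with `Γ/G` a `p`-group.

1. (No hypothesis.) For every `Γ`-invariant block `B` of `G`, `|IBr_Γ(B)|` is the sum over the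
`Γ`-classes of `p`-subgroups `Q` with `G Q = Γ` of the alternating sums
`∑_σ (-1)^|σ| k((N_Γ(Q)/Q)_σ | B)`.

2. Hence the difference of the two sides of Navarro's equality for `B` is the sum over these classes
of the local differences `∑_σ (-1)^|σ| k((N_Γ(Q)/Q)_σ | B) - |dz(N_Γ(Q)/Q | B)|`; and a local
difference vanishes if the blockwise Knörr-Robinson equality holds for the group `N_Γ(Q)/Q`.

3. Let `X` be a class of groups closed under isomorphisms, subgroups and quotients by normal
`p`-subgroups such that the blockwise weight conjecture holds for the groups in `X` which have no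
normal subgroup of index `p` and no non-trivial normal `p`-subgroup. If every group `N_Γ(Q)/Q` with
`G Q = Γ` has a normal subgroup of `p`-power index in `X`, then Navarro's equality holds for all
invariant blocks of `G`. (Nothing is assumed about the sections of `G` itself.)

4. (No hypothesis on weights.) If `H` contains a Sylow `p`-subgroup of `Γ` and the normalisers of its
`p`-subgroups `Q` with `G Q = Γ`, then `|IBr_Γ(B)|` is the number of `H`-invariant irreducible Brauer
characters of `G ∩ H` in blocks inducing `B`, and Navarro's equality for `(G ∩ H, H)` implies it for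
`(G, Γ)`.

5. (No hypothesis on weights.) If every `p`-subgroup `Q` of `Γ` with `G Q = Γ` and
`O_p(N_Γ(Q)/Q) = 1` is a Sylow subgroup, in particular if `G (P₁ ∩ P₂) ≠ Γ` for all distinct Sylow
`p`-subgroups `P₁`, `P₂` of `Γ`, then Navarro's equality holds for all invariant blocks of `G`. -/
theorem result (p : ℕ) [Fact p.Prime] (F : Type) [Field F] [IsAlgClosed F] [CharP F p]
    (red : integralClosure ℤ ℂ →+* F) (Γ : Type) [Group Γ] [Finite Γ] (G : Subgroup Γ) [G.Normal]
    (hG : G ≠ ⊤) (hp : IsPGroup p (Γ ⧸ G)) :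
    (∀ B : (G → F) → F, IsBlock B → IsInvBlock G B →
      (numIBr G B : ℤ) = ∑ᶠ c : Quotient (pSubgroupSetoid p Γ),
        if G ⊔ c.out.1 = ⊤ then locSum p red G c.out.1 B else 0) ∧
    ((∀ B : (G → F) → F, IsBlock B → IsInvBlock G B →
      (numIBr G B : ℤ) - (∑ᶠ c : Quotient (pSubgroupSetoid p Γ),
        if G ⊔ c.out.1 = ⊤ ∧ InDefect p G B c.out.1 then numDz p red G c.out.1 B else 0 : ℕ) =
      ∑ᶠ c : Quotient (pSubgroupSetoid p Γ),
        if G ⊔ c.out.1 = ⊤ then locSum p red G c.out.1 B - numDz0 p red G c.out.1 B else 0) ∧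
      ∀ (Q : Subgroup Γ) (B : (G → F) → F), IsBlock B → KRB p red (Loc Q) →
        locSum p red G Q B = numDz0 p red G Q B) ∧
    (∀ X : ∀ (H : Type) [Group H], Prop, Closed p X →
      (∀ (H : Type) [Group H] [Finite H], X H → Reduced p H →
        NavarroTheta p red (⊤ : Subgroup H)) →
      (∀ Q : Subgroup Γ, IsPGroup p Q → G ⊔ Q = ⊤ →
        ∃ N : Subgroup (Loc Q), ∃ _ : N.Normal, X N ∧ IsPGroup p (Loc Q ⧸ N)) →
      NavarroTheta p red G) ∧
    (∀ H : Subgroup Γ, Controls p G H →
      (∀ B : (G → F) → F, IsBlock B → IsInvBlock G B → numIBr G B = numIBrInd G H B) ∧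
      (NavarroTheta p red (G.subgroupOf H) → NavarroTheta p red G)) ∧
    ((∀ Q : Subgroup Γ, IsPGroup p Q → G ⊔ Q = ⊤ → (¬ p ∣ Nat.card (Loc Q)) ∨
      ∃ Z : Subgroup (Loc Q), Z.Normal ∧ IsPGroup p Z ∧ Z ≠ ⊥) → NavarroTheta p red G) ∧
    ((∀ P₁ P₂ : Sylow p Γ, P₁ ≠ P₂ → G ⊔ ((P₁ : Subgroup Γ) ⊓ (P₂ : Subgroup Γ)) ≠ ⊤) →
      NavarroTheta p red G) := by
  refine ⟨fun B hB hBi => Pool.Agent.Q18.LF.fm red hG hp hB hBi,
    ⟨fun B hB hBi => Pool.Agent.Q18.LF.dfm red hG hp hB hBi,
      fun Q B hB h => Pool.Agent.Q18.LF.loc_of_krb red hB h⟩,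
    fun X hX hR h => Pool.Agent.Q18.LF.crit_class red X hX hR hG hp h, fun H hH => ?_,
    fun h => Pool.Agent.Q18.LF.crit_syl red hG hp h,
    fun h => Pool.Agent.Q18.LF.crit_syl red hG hp (Pool.Agent.Q18.NB.ti p Γ G h)⟩
  have hSE : Pool.Agent.Q18.LF.SE p G H := ⟨hH.syl, hH.nrm⟩
  exact ⟨fun B hB hBi => Pool.Agent.Q18.LF.tr_num hG hp hSE hB hBi,
    fun h => Pool.Agent.Q18.LF.tr_nav red hG hp hSE h⟩

end Pool.Agent.Results.MP_0c8ca5_al.LocalFormula
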