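import Pool.Agent.Q17.FN.Nvf

/-!
# Navarro's blockwise conjecture and congruences for characters fixed by Navarro's automorphisms

`F` is an algebraically closed field of characteristic `p` and `red` the reduction of the algebraic
integers to `F`. Blocks, induced blocks and Navarro's equality (`NavarroTheta`) are those of the
starting library `Pool.Agent.Y63.NV`: a block of `G` is an `F`-algebra homomorphism `B` from the
class functions (the centre of `F[G]`) to `F`, and a character `θ` of a subgroup `H` lies in a block
which induces `B` if `centralValue red θ` of the restriction of `f` to `H` is `B f` for all class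
functions `f` of `G`.
-/

set_option autoImplicit false

open scoped Classical

noncomputable section

namespace Pool.Agent.Results.MP_0c8ca5_al.NavarroFixedCharacters

open Pool.Agent.Y63.NV
open Pool.Agent.Y63.AWC (IsIrreducibleCharacter)
open Pool.Agent.Y63.KR (alternatingSum)

/-- the wreath product of `G` with the group `A` in its regular action -/
abbrev WreathRegular (G : Type) [Group G] (A : Type) [Group A] : Type :=
  (A → G) ⋊[mulAutArrow (G := A) (A := A) (M := G)] A

/-- The class `X` is closed under isomorphisms, subgroups, quotients by normal `p`-subgroups, and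
contains with the finite group `G` the groups `G × C` and `G ≀ C`, where `C` is cyclic of order prime
to `p` in the first case and of prime order (`p` included) in the second. -/
structure IsClosed (p : ℕ) (X : ∀ (G : Type) [Group G], Prop) : Prop where
  closed : Closed p X
  prod : ∀ (G : Type) [Group G] [Finite G] (v : ℕ) [NeZero v], ¬ p ∣ v → X G →
    X (G × Multiplicative (ZMod v))
  wreath : ∀ (G : Type) [Group G] [Finite G] (q : ℕ) [Fact q.Prime], X G →
    X (WreathRegular G (Multiplicative (ZMod q)))

/-- `O_p(G) = 1`: the group `G` has no nontrivial normal `p`-subgroup. -/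
def TrivialCore (p : ℕ) (G : Type) [Group G] : Prop :=
  ∀ M : Subgroup G, M.Normal → IsPGroup p M → M = ⊥

/-- Navarro's automorphisms: for some `e` the automorphism `s` of `ℂ` raises the `n`-th roots of unity
of order prime to `p` to the power `p ^ e`; if `p = 2` it is also required that `s i = i`. -/
def IsNavarro (p n : ℕ) (s : ℂ ≃+* ℂ) : Prop :=
  (p = 2 → s Complex.I = Complex.I) ∧
    ∃ e : ℕ, ∀ ζ : ℂ, ζ ^ n = 1 → (∃ m : ℕ, ¬ p ∣ m ∧ ζ ^ m = 1) → s ζ = ζ ^ (p ^ e)

/-- The number of the irreducible characters `θ` of the subgroup `H` of `G` which lie in blocks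
inducing the block `B` of `G` and are fixed by Navarro's automorphisms for the `|G|`-th roots of
unity. -/
def numFixed (p : ℕ) {F : Type} [Field F] (red : integralClosure ℤ ℂ →+* F) {G : Type} [Group G]
    (B : (G → F) → F) (H : Subgroup G) : ℕ :=
  Nat.card {θ : H → ℂ // IsIrreducibleCharacter θ ∧
    (∀ s : ℂ ≃+* ℂ, IsNavarro p (Nat.card G) s → ∀ x, s (θ x) = θ x) ∧
    ∀ f : G → F, IsClassFun f → centralValue red θ (fun x => f x) = B f}

/-- The block `B` is stable under all automorphisms `s` of `ℂ`: if `χ` is an irreducible character in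
`B` then so is `s ∘ χ`. -/
def IsGaloisStable {F : Type} [Field F] (red : integralClosure ℤ ℂ →+* F) {G : Type} [Group G]
    (B : (G → F) → F) : Prop :=
  ∀ (s : ℂ ≃+* ℂ) (χ : G → ℂ), IsIrreducibleCharacter χ →
    (∀ f : G → F, IsClassFun f → centralValue red χ f = B f) →
    ∀ f : G → F, IsClassFun f → centralValue red (fun g => s (χ g)) f = B f

lemma fix_i (s : ℂ ≃+* ℂ) : (∀ ζ : ℂ, ζ ^ (2 ^ 2) = 1 → s ζ = ζ) ↔ s Complex.I = Complex.I := by
  constructor
  · intro h
    exact h _ (by norm_num [Complex.I_sq, pow_succ, pow_zero])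
  · intro h ζ hζ
    have h3 : (ζ - 1) * (ζ + 1) * (ζ - Complex.I) * (ζ + Complex.I) = 0 := by
      have h4 : ζ ^ 4 = 1 := by
        norm_num at hζ
        exact hζ
      linear_combination h4 - (ζ ^ 2 - 1) * Complex.I_mul_I
    rcases mul_eq_zero.mp h3 with h4 | h4
    · rcases mul_eq_zero.mp h4 with h5 | h5
      · rcases mul_eq_zero.mp h5 with h6 | h6
        · rw [sub_eq_zero.mp h6, map_one]
        · rw [eq_neg_of_add_eq_zero_left h6, map_neg, map_one]
      · rw [sub_eq_zero.mp h5, h]
    · rw [eq_neg_of_add_eq_zero_left h4, map_neg, h]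

/-- **Theorem.** Let `p` be a prime, `m` a natural number which is not a power of `p` (`m = 0` is
allowed) and `X` a class of groups which is closed as in `IsClosed` (for instance all groups).
Suppose that for all finite groups `H` in `X` with `O_p(H) = 1` and all Galois-stable blocks `B` of
`H` without characters of defect zero the number `m` divides the alternating sum
`∑_σ (-1)^|σ| c(B_σ)`, where `c(B_σ)` is the number of the irreducible characters of the stabiliser of
`σ` which lie in blocks inducing `B` and are fixed by all automorphisms `s` of `ℂ` with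
`s(ζ) = ζ^(p^e)`, for some `e`, for the `|H|`-th roots of unity `ζ` of order prime to `p` (and
`s(i) = i` if `p = 2`), and `σ` runs over representatives of the classes of chains of nontrivial
`p`-subgroups of `H`, the empty chain included. Then
(1) Navarro's equality holds for all finite groups `Γ` with normal subgroups `N ≤ G`, `N` in `X` and
`Γ/N` a `p`-group, and all `Γ`-invariant blocks of `G`;
(2) the blockwise Alperin weight conjecture and the Knörr-Robinson equality
`∑_σ (-1)^|σ| k(B_σ) = z(B)` hold for all blocks of these `Γ`. -/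
theorem result (p : ℕ) [Fact p.Prime] (F : Type) [Field F] [IsAlgClosed F] [CharP F p]
    (red : integralClosure ℤ ℂ →+* F) (X : ∀ (H : Type) [Group H], Prop) (hX : IsClosed p X)
    (m : ℕ) (hm : ∀ k, m ≠ p ^ k)
    (h : ∀ (H : Type) [Group H] [Finite H], X H → TrivialCore p H → ∀ B : (H → F) → F,
      IsBlock B → IsGaloisStable red B → numDzBlock p red B = 0 →
      (m : ℤ) ∣ alternatingSum p H (fun K => (numFixed p red B K : ℤ))) :
    (∀ (Γ : Type) [Group Γ] [Finite Γ] (N G : Subgroup Γ) [N.Normal] [G.Normal], N ≤ G → X N →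
      IsPGroup p (Γ ⧸ N) → NavarroTheta p red G) ∧
    ∀ (Γ : Type) [Group Γ] [Finite Γ] (N : Subgroup Γ) [N.Normal], X N → IsPGroup p (Γ ⧸ N) →
      BAWC p red Γ ∧ KRB p red Γ := by
  have hp : p.Prime := Fact.out
  obtain ⟨b, hpb, hb⟩ : ∃ b : ℕ, (p ≠ 2 ∨ 2 ≤ b) ∧ (∀ (n : ℕ) (s : ℂ ≃+* ℂ),
      IsNavarro p n s ↔ Pool.Agent.Q17.FN.Nav p b n s) := by
    by_cases h2 : p = 2
    · refine ⟨2, Or.inr le_rfl, fun n s => and_congr_left fun _ => ?_⟩
      subst h2
      exact ⟨fun h => (fix_i s).mpr (h rfl), fun h _ => (fix_i s).mp h⟩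
    · refine ⟨0, Or.inl h2, fun n s => and_congr_left fun _ =>
        ⟨fun _ ζ hζ => ?_, fun _ h => absurd h h2⟩⟩
      rw [pow_zero, pow_one] at hζ
      rw [hζ, map_one]
  have key : ∀ (H : Type) [Group H] [Finite H], X H → TrivialCore p H → KRB p red H := by
    intro H _ _ hH hR
    refine Pool.Agent.Q17.FN.krb_V (m := m) (b := b)
      hm hpb red (X := X) ⟨fun G _ _ q _ hG => hX.wreath G q hG,
        fun G _ _ v _ hv hG => hX.prod G v hv hG⟩ ?_ hH hR
    intro G _ _ hG hG1 β hβ hst hz
    have h1 := h G hG hG1 β hβ hst hz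
    have h2 : ∀ K : Subgroup G, numFixed p red β K = Pool.Agent.Q18.K.numQ red β
        (fun S => ∀ s ∈ {s | Pool.Agent.Q17.FN.Nav p b (Nat.card G) s}, ∀ a ∈ S, s a = a) K := by
      intro K
      unfold numFixed Pool.Agent.Q18.K.numQ
      refine Nat.card_congr (Equiv.subtypeEquivRight fun χ => and_congr_right fun _ =>
        and_congr_left fun _ => ?_)
      refine forall_congr' fun s => ?_
      rw [hb (Nat.card G) s, Set.mem_ofPred_eq]
      simp only [Set.forall_mem_range]
    simpa only [h2] using h1
  refine ⟨?_, ?_⟩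
  · refine (block_strong red X hX.closed).1 fun H _ _ hH hR => ?_
    have h1 := Pool.Agent.Q18.K.bawc_all red X hX.closed
      (fun H _ _ hH hR => key H hH hR.radical) H ⊤
      (hX.closed.iso _ _ hH ⟨Subgroup.topEquiv.symm⟩) (pgroup_top p H)
    exact (theta_iff p F red H ⊤).2 ((bawc_iff p red).1 h1.1)
  · intro Γ _ _ N _ hN hpN
    exact Pool.Agent.Q18.K.bawc_all red X hX.closed
      (fun H _ _ hH hR => key H hH hR.radical) Γ N hN hpN

end Pool.Agent.Results.MP_0c8ca5_al.NavarroFixedCharacters
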